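import Pool.Agent.Helper70.ML.St2

set_option autoImplicit false
set_option linter.unusedSectionVars false

namespace Pool.Agent.Helper78.ML

open Pool.Agent.Helper70.ML Pool.Agent.Helper75.MX

theorem sum_lz {G : Type} [Group G] [Fintype G] (g : G) (p : ℝ) (f : G → ℝ) :
    ∑ x, lz g p f x = ∑ x, f x := by
  have h : ∑ x, L g f x = ∑ x, f x := by
    unfold L
    exact Fintype.sum_equiv (Equiv.mulLeft g⁻¹) _ _ (fun x => rfl)
  simp only [lz, Pi.add_apply, Pi.smul_apply, smul_eq_mul]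
  rw [Finset.sum_add_distrib, ← Finset.mul_sum, ← Finset.mul_sum, h]
  ring

theorem sum_app {G : Type} [Group G] [Fintype G] (l : List (G × ℝ)) (f : G → ℝ) :
    ∑ x, app l f x = ∑ x, f x := by
  induction l with
  | nil => rfl
  | cons a l ih => rw [app_cons, sum_lz, ih]

theorem mix_of_const {G : Type} [Group G] [Fintype G] {k : ℕ} {f : G → ℝ} (h : Reach k (dlt G) f)
    (hf : ∀ g : G, L g f = f) : Mix G k := by
  classical
  have hc : ∀ x, f x = f 1 := by
    intro x
    have := congrFun (hf x) x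
    simp only [L, inv_mul_cancel] at this
    exact this.symm
  obtain ⟨l, hl, ho, he⟩ := h
  have hs : ∑ x, f x = 1 := by
    rw [← he, sum_app]
    unfold dlt
    simp
  rw [Finset.sum_congr rfl (fun x _ => hc x), Finset.sum_const, Finset.card_univ, nsmul_eq_mul] at hs
  refine ⟨l, hl, ho, ?_⟩
  rw [he]
  funext x
  rw [hc x]
  unfold uni
  rw [Nat.card_eq_fintype_card]
  have h0 : (Fintype.card G : ℝ) ≠ 0 := by
    have : 0 < Fintype.card G := Fintype.card_pos
    positivity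
  rw [eq_div_iff h0, mul_comm]
  exact hs

theorem hSLN (hTOR : StTOR) (hROOT : StROOT) (hCOL : StCOL) (hUNI : StUNI) (hCNT : StCNT)
    (hQUO : StQUO) : StSLN := by
  intro n F _ _ hn hn3 N _ hN
  obtain ⟨kd, hkd, htor⟩ := hTOR n F hn
  obtain ⟨cq, hcq, hroot⟩ := hROOT n F hn hn3
  have : Fintype (SLn n F) := Fintype.ofFinite _
  have hall : ∀ j : ℕ, 1 ≤ j → j ≤ n → ∃ f : SLn n F → ℝ,
      Reach ((n - 1) * kd + (2 * cq + 1) * ∑ i ∈ Finset.range j, i) (dlt (SLn n F)) f ∧
        Inv (InH j) f := by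
    intro j hj
    induction j, hj using Nat.le_induction with
    | base =>
      intro _
      obtain ⟨f', h1, h2⟩ := htor (dlt _)
      exact ⟨f', by simpa using h1, h2⟩
    | succ j hj ih =>
      intro hjn
      obtain ⟨f, h1, h2⟩ := ih (by omega)
      obtain ⟨f', h3, h4⟩ := hCOL n F j hj (by omega) cq hroot f h2
      obtain ⟨f'', h5, h6⟩ := hUNI n F j hj (by omega) cq hroot f' h4
      refine ⟨f'', ?_, h6⟩
      have h7 := (h1.trans h3).trans h5
      have e : (n - 1) * kd + (2 * cq + 1) * ∑ i ∈ Finset.range j, i + j * cq + j * (1 + cq) =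
          (n - 1) * kd + (2 * cq + 1) * ∑ i ∈ Finset.range (j + 1), i := by
        rw [Finset.sum_range_succ]
        ring
      rw [e] at h7
      exact h7
  obtain ⟨f, h1, h2⟩ := hall n (by omega) le_rfl
  rw [Finset.sum_range_id] at h1
  have hinv : ∀ g : SLn n F, L g f = f := by
    intro g
    apply h2
    intro a b _ h
    have ha := a.2
    have hb := b.2
    omega
  have hmix := hQUO _ N _ (mix_of_const h1 hinv)
  set k := (n - 1) * kd + (2 * cq + 1) * (n * (n - 1) / 2) with hk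
  obtain ⟨m, hm, hmm⟩ := exists_isMixing hmix
  refine ⟨⟨m, hmm⟩, ?_⟩
  have hle : mixlen (SLn n F ⧸ N) ≤ k := (Nat.sInf_le hmm).trans hm
  -- the bound
  have hC := hCNT n F hn
  set q := Nat.card F with hq
  set X := (2 * (q - 1)) ^ (n - 1) * q ^ (n * (n - 1) / 2) with hX
  have hcard : Nat.card (SLn n F) = Nat.card (SLn n F ⧸ N) * Nat.card N := card_quot N
  have hNc : Nat.card N ≤ Nat.card (Subgroup.center (SLn n F)) :=
    Nat.card_mono (Set.toFinite _) hN
  have hc0 : 0 < Nat.card (Subgroup.center (SLn n F)) := Nat.card_pos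
  have hXc : X ≤ Nat.card (SLn n F ⧸ N) := by
    apply Nat.le_of_mul_le_mul_left _ hc0
    calc Nat.card (Subgroup.center (SLn n F)) * X
        = Nat.card (Subgroup.center (SLn n F)) * (2 * (q - 1)) ^ (n - 1) *
          q ^ (n * (n - 1) / 2) := by rw [hX]; ring
      _ ≤ Nat.card (SLn n F) := hC
      _ = Nat.card (SLn n F ⧸ N) * Nat.card N := hcard
      _ ≤ Nat.card (SLn n F ⧸ N) * Nat.card (Subgroup.center (SLn n F)) :=
          Nat.mul_le_mul_left _ hNc
      _ = _ := by ring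
  have h2k : 2 ^ k ≤ Nat.card (SLn n F ⧸ N) ^ 6 := by
    calc 2 ^ k = (2 ^ kd) ^ (n - 1) * (2 ^ (2 * cq + 1)) ^ (n * (n - 1) / 2) := by
          rw [hk, pow_add, ← pow_mul, ← pow_mul, mul_comm kd]
      _ ≤ ((2 * (q - 1)) ^ 6) ^ (n - 1) * (q ^ 6) ^ (n * (n - 1) / 2) :=
          Nat.mul_le_mul (Nat.pow_le_pow_left hkd _) (Nat.pow_le_pow_left hcq _)
      _ = X ^ 6 := by
          rw [hX]
          generalize 2 * (q - 1) = a
          generalize n * (n - 1) / 2 = b
          ring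
      _ ≤ _ := Nat.pow_le_pow_left hXc 6
  have hQ0 : 0 < Nat.card (SLn n F ⧸ N) := Nat.card_pos
  have h3 : ((2 : ℝ) ^ k) ≤ (Nat.card (SLn n F ⧸ N) : ℝ) ^ 6 := by exact_mod_cast h2k
  have h4 : Real.logb 2 ((2 : ℝ) ^ k) ≤ Real.logb 2 ((Nat.card (SLn n F ⧸ N) : ℝ) ^ 6) :=
    Real.logb_le_logb_of_le (by norm_num) (by positivity) h3
  rw [Real.logb_pow, Real.logb_pow, Real.logb_self_eq_one (by norm_num), mul_one] at h4
  have h5 : (mixlen (SLn n F ⧸ N) : ℝ) ≤ k := by exact_mod_cast hle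
  have h6 : (k : ℝ) ≤ 6 * Real.logb 2 (Nat.card (SLn n F ⧸ N)) := by
    push_cast at h4 ⊢
    exact h4
  exact h5.trans h6

end Pool.Agent.Helper78.ML
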