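import Pool.Agent.Helper70.ML.St2

set_option autoImplicit false
set_option linter.unusedSectionVars false

namespace Pool.Agent.Helper78.ML

open Pool.Agent.Helper70.ML Pool.Agent.Helper75.MX

section

variable {n : ℕ} {F : Type} [Field F]

theorem smul_mulVec (g : SLn n F) (v : Fin n → F) : g • v = g.1.mulVec v := rfl

theorem tv_smul {i j : Fin n} (h : i ≠ j) (a : F) (v : Fin n → F) :
    tv i j a • v = Function.update v i (v i + a * v j) := by
  rw [smul_mulVec]
  unfold tv
  rw [dif_pos h]
  change (Matrix.transvection i j a).mulVec v = _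
  unfold Matrix.transvection
  rw [Matrix.add_mulVec, Matrix.one_mulVec, Matrix.single_mulVec]
  funext b
  by_cases hb : b = i
  · subst hb; simp
  · simp [hb]

theorem tv_inv {i j : Fin n} (h : i ≠ j) (a : F) : (tv i j a)⁻¹ = tv i j (-a) := by
  rw [inv_eq_iff_mul_eq_one]
  unfold tv
  rw [dif_pos h, dif_pos h]
  apply Subtype.ext
  change Matrix.transvection i j a * Matrix.transvection i j (-a) = 1
  rw [Matrix.transvection_mul_transvection_same i j h]
  simp

theorem inH_tv {i j : Fin n} (h : i ≠ j) {m : ℕ} (hi : (i : ℕ) < m) (hj : (j : ℕ) < m) (a : F) :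
    InH m (tv i j a) := by
  intro b c hbc hm
  unfold tv
  rw [dif_pos h]
  change (Matrix.transvection i j a) b c = 0
  unfold Matrix.transvection
  rw [Matrix.add_apply, Matrix.one_apply_ne hbc, zero_add, Matrix.single_apply]
  rw [if_neg]
  rintro ⟨h1, h2⟩
  subst h1
  subst h2
  omega

/-- the monomial matrix, as a product -/
noncomputable def wm (i j : Fin n) : SLn n F := tv j i 1 * tv i j (-1) * tv j i 1

theorem wm_inv_smul {i j : Fin n} (h : i ≠ j) (v : Fin n → F) :
    (wm i j : SLn n F)⁻¹ • v = Function.update (Function.update v i (v j)) j (-v i) := by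
  unfold wm
  rw [mul_inv_rev, mul_inv_rev, tv_inv h.symm, tv_inv h, neg_neg, mul_smul, mul_smul,
    tv_smul h.symm, tv_smul h, tv_smul h.symm]
  funext b
  by_cases hj : b = j
  · subst hj
    simp [h, h.symm]
  · by_cases hi : b = i
    · subst hi
      simp [h, h.symm]
    · simp [hj, hi]

/-- dependence only on the zero pattern -/
def ZP (μ : (Fin n → F) → ℝ) : Prop := ∀ v v' : Fin n → F, (∀ a, v a = 0 ↔ v' a = 0) → μ v = μ v'

open Classical in
/-- the states -/
noncomputable def mu (c : ℕ → ℝ) (c' : ℝ) (j i : ℕ) : (Fin n → F) → ℝ := fun v =>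
  if (∀ a : Fin n, j < (a : ℕ) → v a = 0) ∧ (∀ a : Fin n, (a : ℕ) < i → v a = 0) ∧
      (∃ a, v a ≠ 0) then
    (if ∀ a : Fin n, (a : ℕ) = i → v a = 0 then c' else c i)
  else 0

theorem mu_zp (c : ℕ → ℝ) (c' : ℝ) (j i : ℕ) : ZP (mu (n := n) (F := F) c c' j i) := by
  classical
  intro v v' h
  have h' : ∀ a, v a ≠ 0 ↔ v' a ≠ 0 := fun a => not_congr (h a)
  exact if_congr (and_congr (forall_congr' fun a => imp_congr Iff.rfl (h a))
    (and_congr (forall_congr' fun a => imp_congr Iff.rfl (h a)) (exists_congr h')))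
    (if_congr (forall_congr' fun a => imp_congr Iff.rfl (h a)) rfl rfl) rfl

theorem mu_zero_of_S {c : ℕ → ℝ} {c' : ℝ} {j i : ℕ} {v : Fin n → F} {b : Fin n} (hb : j < (b : ℕ))
    (hv : v b ≠ 0) : mu c c' j i v = 0 := by
  unfold mu
  rw [if_neg]
  rintro ⟨h, -, -⟩
  exact hv (h b hb)

theorem mu_zero_of_Z {c : ℕ → ℝ} {c' : ℝ} {j i : ℕ} {v : Fin n → F} {b : Fin n} (hb : (b : ℕ) < i)
    (hv : v b ≠ 0) : mu c c' j i v = 0 := by
  unfold mu
  rw [if_neg]
  rintro ⟨-, h, -⟩
  exact hv (h b hb)

theorem mu_of_gt {c : ℕ → ℝ} {c' : ℝ} {j i : ℕ} {v : Fin n → F}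
    (h1 : ∀ a : Fin n, j < (a : ℕ) → v a = 0) (h2 : ∀ a : Fin n, (a : ℕ) < i → v a = 0)
    (h3 : ∃ a, v a ≠ 0) (h4 : ∀ a : Fin n, (a : ℕ) = i → v a = 0) : mu c c' j i v = c' := by
  unfold mu
  rw [if_pos ⟨h1, h2, h3⟩, if_pos h4]

theorem mu_of_eq {c : ℕ → ℝ} {c' : ℝ} {j i : ℕ} {v : Fin n → F} {b : Fin n}
    (h1 : ∀ a : Fin n, j < (a : ℕ) → v a = 0) (h2 : ∀ a : Fin n, (a : ℕ) < i → v a = 0)
    (hb : (b : ℕ) = i) (h3 : v b ≠ 0) : mu c c' j i v = c i := by
  unfold mu
  rw [if_pos ⟨h1, h2, b, h3⟩, if_neg]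
  intro h
  exact h3 (h b hb)

theorem mu_nil {c : ℕ → ℝ} {c' : ℝ} {j i : ℕ} {v : Fin n → F} (h : ∀ a, v a = 0) :
    mu c c' j i v = 0 := by
  unfold mu
  rw [if_neg]
  rintro ⟨-, -, a, ha⟩
  exact ha (h a)

/-- the lazy step -/
noncomputable def nu (c : ℕ → ℝ) (c' p : ℝ) (j i : ℕ) (A B : Fin n) : (Fin n → F) → ℝ := fun v =>
  (1 - p) * mu c c' j (i + 1) v +
    p * mu c c' j (i + 1) (Function.update (Function.update v A (v B)) B (-v A))

theorem nu_zp (c : ℕ → ℝ) (c' p : ℝ) (j i : ℕ) (A B : Fin n) :
    ZP (nu (n := n) (F := F) c c' p j i A B) := by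
  intro v v' h
  unfold nu
  rw [mu_zp c c' j (i + 1) v v' h]
  congr 2
  apply mu_zp c c' j (i + 1)
  intro a
  by_cases hB : a = B
  · subst hB; simp [h]
  · by_cases hA : a = A
    · subst hA; simp [hB, h]
    · simp [hA, hB, h]

theorem step_val [Fintype F] (c : ℕ → ℝ) (c' p : ℝ) (j i : ℕ) (A B : Fin n) (hA : (A : ℕ) = i)
    (hB : (B : ℕ) = i + 1) (hj : i + 1 ≤ j) (h1 : (1 - p) * c (i + 1) = c')
    (h2 : p * c (i + 1) = (Fintype.card F : ℝ) * c i) (v : Fin n → F) :
    ∑ a : F, nu c c' p j i A B (Function.update v B (v B + (-a) * v A)) =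
      (Fintype.card F : ℝ) * mu c c' j i v := by
  have hAB : A ≠ B := by
    intro h
    rw [h] at hA
    omega
  have hBA : B ≠ A := hAB.symm
  -- the second point
  have key : ∀ a : F, Function.update (Function.update (Function.update v B (v B + (-a) * v A)) A
      ((Function.update v B (v B + (-a) * v A)) B)) B
      (-(Function.update v B (v B + (-a) * v A)) A) =
      Function.update (Function.update v A (v B + (-a) * v A)) B (-v A) := by
    intro a
    funext b
    by_cases hb : b = B
    · subst hb; simp [hAB]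
    · by_cases hb' : b = A
      · subst hb'; simp [hAB]
      · simp [hb, hb']
  have hnu : ∀ a : F, nu c c' p j i A B (Function.update v B (v B + (-a) * v A)) =
      (1 - p) * mu c c' j (i + 1) (Function.update v B (v B + (-a) * v A)) +
      p * mu c c' j (i + 1) (Function.update (Function.update v A (v B + (-a) * v A)) B (-v A)) := by
    intro a
    unfold nu
    rw [key a]
  simp only [hnu]
  by_cases hS : ∀ a : Fin n, j < (a : ℕ) → v a = 0
  swap
  · push Not at hS
    obtain ⟨b, hb, hvb⟩ := hS
    have hb1 : b ≠ A := by rintro rfl; omega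
    have hb2 : b ≠ B := by rintro rfl; omega
    rw [mu_zero_of_S hb hvb, mul_zero]
    apply Finset.sum_eq_zero
    intro a _
    rw [mu_zero_of_S hb (by simpa [hb2] using hvb), mu_zero_of_S hb (by simpa [hb1, hb2] using hvb)]
    ring
  by_cases hZ : ∀ a : Fin n, (a : ℕ) < i → v a = 0
  swap
  · push Not at hZ
    obtain ⟨b, hb, hvb⟩ := hZ
    have hb1 : b ≠ A := by rintro rfl; omega
    have hb2 : b ≠ B := by rintro rfl; omega
    have hb' : (b : ℕ) < i + 1 := by omega
    rw [mu_zero_of_Z hb hvb, mul_zero]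
    apply Finset.sum_eq_zero
    intro a _
    rw [mu_zero_of_Z hb' (by simpa [hb2] using hvb), mu_zero_of_Z hb' (by simpa [hb1, hb2] using hvb)]
    ring
  have hAeq : ∀ a : Fin n, (a : ℕ) = i → a = A := fun a ha => Fin.ext (by omega)
  have hBeq : ∀ a : Fin n, (a : ℕ) = i + 1 → a = B := fun a ha => Fin.ext (by omega)
  by_cases hvA : v A = 0
  · have e1 : ∀ a : F, Function.update v B (v B + (-a) * v A) = v := by
      intro a
      rw [hvA, mul_zero, add_zero, Function.update_eq_self]
    have e2 : ∀ a : F, v B + (-a) * v A = v B := by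
      intro a
      rw [hvA, mul_zero, add_zero]
    simp only [e1]
    simp only [e2]
    rw [Finset.sum_const, Finset.card_univ, nsmul_eq_mul]
    congr 1
    have hZ' : ∀ a : Fin n, (a : ℕ) < i + 1 → v a = 0 := by
      intro a ha
      rcases Nat.lt_or_ge (a : ℕ) i with h | h
      · exact hZ a h
      · rw [hAeq a (by omega)]; exact hvA
    by_cases hvB : v B = 0
    · have e3 : Function.update (Function.update v A (v B)) B (-v A) = v := by
        funext b
        by_cases hb : b = B
        · subst hb; simp [hvA, hvB]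
        · by_cases hb' : b = A
          · subst hb'; simp [hAB, hvA, hvB]
          · simp [hb, hb']
      rw [e3]
      by_cases hv : ∀ a, v a = 0
      · rw [mu_nil hv, mu_nil hv]; ring
      · push Not at hv
        rw [mu_of_gt hS hZ' hv (fun a ha => by rw [hBeq a ha]; exact hvB),
          mu_of_gt hS hZ hv (fun a ha => by rw [hAeq a ha]; exact hvA)]
        ring
    · rw [mu_of_eq hS hZ' hB hvB, mu_of_gt hS hZ ⟨B, hvB⟩ (fun a ha => by rw [hAeq a ha]; exact hvA),
        mu_zero_of_Z (b := A) (by omega) (by simpa [hAB] using hvB)]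
      rw [mul_zero, add_zero, h1]
  · rw [mu_of_eq hS hZ hA hvA]
    have e1 : ∀ a : F, mu c c' j (i + 1) (Function.update v B (v B + (-a) * v A)) = 0 := by
      intro a
      exact mu_zero_of_Z (b := A) (by omega) (by simpa [hAB] using hvA)
    simp only [e1, mul_zero, zero_add]
    rw [Finset.sum_eq_single (v B / v A)]
    · have e3 : v B + -(v B / v A) * v A = 0 := by field_simp; ring
      rw [e3]
      rw [mu_of_eq (b := B) ?_ ?_ hB (by simpa using hvA)]
      · exact h2
      · intro a ha
        have hb1 : a ≠ A := by rintro rfl; omega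
        have hb2 : a ≠ B := by rintro rfl; omega
        simpa [hb1, hb2] using hS a ha
      · intro a ha
        have hb2 : a ≠ B := by rintro rfl; omega
        by_cases hb1 : a = A
        · subst hb1; simp [hAB]
        · simpa [hb1, hb2] using hZ a (by
            have : (a : ℕ) ≠ i := fun h => hb1 (hAeq a h)
            omega)
    · intro a _ ha
      have e3 : v B + (-a) * v A ≠ 0 := by
        intro h
        apply ha
        field_simp
        linear_combination -h
      rw [mu_zero_of_Z (b := A) (by omega) (by simpa [hAB] using e3), mul_zero]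
    · intro h
      exact absurd (Finset.mem_univ _) h

end

theorem hUNI (hGRP : StGRP) (hORB : StORB) : StUNI := by
  classical
  intro n F _ _ j hj1 hjn cq hcq f hf
  have : Fintype F := Fintype.ofFinite F
  obtain ⟨⟨K, hK⟩, -⟩ := hGRP n F (j + 1)
  obtain ⟨-, ⟨H, hH⟩⟩ := hGRP n F j
  obtain ⟨⟨K1, hK1⟩, -⟩ := hGRP n F 1
  set J : Fin n := ⟨j, hjn⟩ with hJ
  set x₀ : Fin n → F := Pi.single J 1 with hx₀
  have hcol : ∀ (g : SLn n F) (a : Fin n), (g • x₀) a = g.1 a J := by
    intro g a
    rw [smul_mulVec, hx₀, Matrix.mulVec_single_one]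
    rfl
  have hHK : H ≤ K := by
    intro g hg
    exact (hK g).2 ((hH g).1 hg).1
  have hst : ∀ k ∈ K, k • x₀ = x₀ → k ∈ H := by
    intro k hk he
    refine (hH k).2 ⟨(hK k).1 hk, ?_⟩
    intro a b hab hb
    have hbJ : b = J := Fin.ext hb
    subst hbJ
    rw [← hcol, he, hx₀]
    simp [hab]
  have hfs : H ≤ stab f := by
    intro g hg
    exact hf g ((hH g).1 hg)
  obtain ⟨Φ, hadd, hsm, hL, hstart, hend⟩ := hORB (SLn n F) (Fin n → F) K H hHK x₀ hst f hfs
  -- constants
  set q : ℝ := (Fintype.card F : ℝ) with hq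
  have hq2 : (2 : ℝ) ≤ q := by
    have : 1 < Fintype.card F := Fintype.one_lt_card
    rw [hq]
    exact_mod_cast this
  have hN : (0 : ℝ) < q ^ (j + 1) - 1 := by
    have : (1 : ℝ) < q ^ (j + 1) := one_lt_pow₀ (by linarith) (by omega)
    linarith
  set c : ℕ → ℝ := fun i => (q ^ (i + 1) - 1) / (q ^ (j + 1) - 1) with hc
  set c' : ℝ := (q - 1) / (q ^ (j + 1) - 1) with hc'
  have hKne : ∀ k : SLn n F, ∃ a, (k • x₀) a ≠ 0 := by
    intro k
    by_contra h
    push Not at h
    have h1 : k • x₀ = 0 := funext h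
    have h2 : x₀ = 0 := by
      have := congrArg (fun y => k⁻¹ • y) h1
      simpa using this
    have h3 := congrFun h2 J
    rw [hx₀] at h3
    simp at h3
  have hKS : ∀ k ∈ K, ∀ a : Fin n, j < (a : ℕ) → (k • x₀) a = 0 := by
    intro k hk a ha
    rw [hcol]
    apply (hK k).1 hk a J
    · intro h
      rw [h] at ha
      simp [hJ] at ha
    · left; omega
  -- start
  have hs : Φ (mu c c' j j) = f := by
    apply hstart
    intro k hk
    constructor
    · intro hkH
      have hP := ((hH k).1 hkH).2
      have hz : ∀ a, a ≠ J → (k • x₀) a = 0 := by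
        intro a ha
        rw [hcol]
        exact hP a J ha rfl
      have hJn : (k • x₀) J ≠ 0 := by
        obtain ⟨a, ha⟩ := hKne k
        have : a = J := by
          by_contra h
          exact ha (hz a h)
        rw [← this]; exact ha
      rw [mu_of_eq (b := J) (hKS k hk) _ rfl hJn]
      · rw [hc]
        exact div_self hN.ne'
      · intro a ha
        apply hz
        rintro rfl
        simp [hJ] at ha
    · intro hkH
      have : ∃ a : Fin n, a ≠ J ∧ (k • x₀) a ≠ 0 := by
        by_contra h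
        push Not at h
        apply hkH
        refine (hH k).2 ⟨(hK k).1 hk, ?_⟩
        intro a b hab hb
        have hbJ : b = J := Fin.ext hb
        subst hbJ
        rw [← hcol]
        exact h a hab
      obtain ⟨a, ha, ha'⟩ := this
      have h1 : ¬ (j < (a : ℕ)) := fun h => ha' (hKS k hk a h)
      have h2 : (a : ℕ) ≠ j := fun h => ha (Fin.ext h)
      exact mu_zero_of_Z (b := a) (by omega) ha'
  -- finite sums
  have hΦ0 : Φ 0 = 0 := by
    have := hsm 0 0
    simpa using this
  have hsum : ∀ (s : Finset F) (g : F → (Fin n → F) → ℝ), Φ (∑ a ∈ s, g a) = ∑ a ∈ s, Φ (g a) := by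
    intro s g
    induction s using Finset.induction_on with
    | empty => simpa using hΦ0
    | insert a s ha ih => rw [Finset.sum_insert ha, Finset.sum_insert ha, hadd, ih]
  -- invariance
  have hinv : ∀ μ : (Fin n → F) → ℝ, ZP μ → Inv (InH 1) (Φ μ) := by
    intro μ hμ g hg
    have hdiag : ∀ g : SLn n F, InH 1 g → ∀ (v : Fin n → F) (a : Fin n),
        (g • v) a = g.1 a a * v a := by
      intro g hg v a
      rw [smul_mulVec]
      change ∑ b, g.1 a b * v b = _
      rw [Finset.sum_eq_single a]
      · intro b _ hb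
        rw [hg a b (Ne.symm hb) (by
          have : (a : ℕ) ≠ (b : ℕ) := fun h => hb (Fin.ext h.symm)
          omega), zero_mul]
      · intro h
        exact absurd (Finset.mem_univ _) h
    have hgK : g ∈ K := (hK g).2 (fun a b hab h => hg a b hab (by omega))
    have hg' : InH 1 g⁻¹ := (hK1 _).1 (K1.inv_mem ((hK1 g).2 hg))
    rw [hL g hgK]
    congr 1
    funext v
    apply hμ
    intro a
    constructor
    · intro h
      have : v a = g.1 a a * (g⁻¹ • v) a := by
        rw [← hdiag g hg, smul_inv_smul]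
      rw [this, h, mul_zero]
    · intro h
      rw [hdiag _ hg', h, mul_zero]
  -- the step
  have hstep : ∀ i : ℕ, i + 1 ≤ j → Reach (1 + cq) (Φ (mu c c' j (i + 1))) (Φ (mu c c' j i)) := by
    intro i hi
    set A : Fin n := ⟨i, by omega⟩ with hA
    set B : Fin n := ⟨i + 1, by omega⟩ with hB
    have hAB : A ≠ B := by
      intro h
      have := congrArg Fin.val h
      simp [hA, hB] at this
    set p : ℝ := q * (q ^ (i + 1) - 1) / (q ^ (i + 2) - 1) with hp
    have hi1 : (1 : ℝ) < q ^ (i + 1) := one_lt_pow₀ (by linarith) (by omega)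
    have hi2 : (1 : ℝ) < q ^ (i + 2) := one_lt_pow₀ (by linarith) (by omega)
    have hi2' : (0 : ℝ) < q ^ (i + 2) - 1 := by linarith
    have hp0 : 0 ≤ p := by
      rw [hp]
      apply div_nonneg _ hi2'.le
      apply mul_nonneg <;> linarith
    have hp1 : p ≤ 1 := by
      rw [hp, div_le_one hi2']
      have : q * (q ^ (i + 1) - 1) = q ^ (i + 2) - q := by ring
      rw [this]
      linarith
    have hwK : (wm A B : SLn n F) ∈ K := by
      have h1 : ∀ a : F, tv B A a ∈ K := fun a =>
        (hK _).2 (inH_tv hAB.symm (by simp only [hB]; omega) (by simp only [hA]; omega) a)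
      have h2 : ∀ a : F, tv A B a ∈ K := fun a =>
        (hK _).2 (inH_tv hAB (by simp only [hA]; omega) (by simp only [hB]; omega) a)
      exact K.mul_mem (K.mul_mem (h1 _) (h2 _)) (h1 _)
    have e1 : lz (wm A B) p (Φ (mu c c' j (i + 1))) = Φ (nu c c' p j i A B) := by
      unfold lz
      rw [hL _ hwK, ← hsm, ← hsm, ← hadd]
      congr 1
      funext v
      simp only [Pi.add_apply, Pi.smul_apply, smul_eq_mul]
      rw [wm_inv_smul hAB]
      rfl
    have r1 : Reach 1 (Φ (mu c c' j (i + 1))) (Φ (nu c c' p j i A B)) := by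
      rw [← e1]
      exact Reach.step hp0 hp1 _
    obtain ⟨r2, -⟩ := hcq B A hAB.symm _ (hinv _ (nu_zp (n := n) (F := F) c c' p j i A B))
    have e2 : avR B A (Φ (nu c c' p j i A B)) = Φ (mu c c' j i) := by
      unfold avR
      rw [finsum_eq_sum_of_fintype]
      have h1 : ∀ a : F, L (tv B A a) (Φ (nu c c' p j i A B)) =
          Φ (fun v => nu c c' p j i A B (Function.update v B (v B + (-a) * v A))) := by
        intro a
        rw [hL _ ((hK _).2 (inH_tv hAB.symm (by simp only [hB]; omega)
          (by simp only [hA]; omega) a))]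
        congr 1
        funext v
        rw [tv_inv hAB.symm, tv_smul hAB.symm]
      simp only [h1]
      rw [← hsum, ← hsm]
      congr 1
      funext v
      simp only [Pi.smul_apply, Finset.sum_apply, smul_eq_mul]
      rw [step_val c c' p j i A B rfl rfl hi _ _ v]
      · rw [Nat.card_eq_fintype_card, ← hq]
        field_simp
      · rw [hc, hc', hp]
        field_simp
        ring
      · rw [hc, hp, ← hq]
        field_simp
    rw [e2] at r2
    exact r1.trans r2
  have hall : ∀ d : ℕ, d ≤ j → Reach (d * (1 + cq)) f (Φ (mu c c' j (j - d))) := by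
    intro d
    induction d with
    | zero =>
      intro _
      rw [Nat.sub_zero, hs, zero_mul]
      exact Reach.refl f
    | succ d ih =>
      intro hd
      have h1 := ih (by omega)
      have h2 := hstep (j - (d + 1)) (by omega)
      have e : j - (d + 1) + 1 = j - d := by omega
      rw [e] at h2
      have h3 := h1.trans h2
      have e' : d * (1 + cq) + (1 + cq) = (d + 1) * (1 + cq) := by ring
      rw [e'] at h3
      exact h3
  have hfin := hall j le_rfl
  rw [Nat.sub_self] at hfin
  refine ⟨_, hfin, ?_⟩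
  intro g hg
  have h := hend (mu c c' j 0) c' (by
    intro k hk
    by_cases h0 : ∀ a : Fin n, (a : ℕ) = 0 → (k • x₀) a = 0
    · exact mu_of_gt (hKS k hk) (fun a ha => absurd ha (Nat.not_lt_zero _)) (hKne k) h0
    · push Not at h0
      obtain ⟨b, hb, hb'⟩ := h0
      rw [mu_of_eq (hKS k hk) (fun a ha => absurd ha (Nat.not_lt_zero _)) hb hb', hc, hc']
      simp)
  exact h ((hK g).2 hg)

end Pool.Agent.Helper78.ML
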