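import Pool.Agent.Helper70.ML.St3

/-!
# Project ML, module PTHK: the torus meets the kernel trivially

Normal form in the torus: every element of the closure of the `h_{oj}(a)`, `j ∈ insert k A`, is `h_{ok}(a) y`
with `y` in the closure for `A`; the diagonal entry at `k` of its image is `a⁻¹`.
-/

set_option autoImplicit false

namespace Pool.Agent.Helper78.ML

open Pool.Agent.Helper70.ML Pool.Agent.Helper75.MX

section

variable {n : ℕ} {F : Type} [Field F] {E : Type} [Group E]

/-- the closure of the `h_{oj}(a)` with `j ∈ A` -/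
def TA (X : Fin n → Fin n → F → E) (o : Fin n) (A : Finset (Fin n)) : Subgroup E :=
  Subgroup.closure {x | ∃ j a, j ∈ A ∧ j ≠ o ∧ a ≠ 0 ∧ x = Hr X o j a}

theorem Hr_one (X : Fin n → Fin n → F → E) (i j : Fin n) : Hr X i j 1 = 1 := by
  unfold Hr
  exact mul_inv_cancel _

theorem Hr_inv {φ : E →* SLn n F} {X : Fin n → Fin n → F → E} (hT : Tor φ X) {i j : Fin n} (hij : i ≠ j)
    {a : F} (ha : a ≠ 0) : (Hr X i j a)⁻¹ = Hr X i j a⁻¹ := by
  have h := hT.hmul i j a a⁻¹ hij ha (inv_ne_zero ha)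
  rw [mul_inv_cancel₀ ha, Hr_one] at h
  exact inv_eq_of_mul_eq_one_right h

theorem TA_comm {φ : E →* SLn n F} {X : Fin n → Fin n → F → E} (hT : Tor φ X) {o k : Fin n} (hk : k ≠ o)
    (A : Finset (Fin n)) {y : E} (hy : y ∈ TA X o A) {b : F} (hb : b ≠ 0) : Commute y (Hr X o k b) := by
  unfold TA at hy
  induction hy using Subgroup.closure_induction with
  | mem x hx =>
    obtain ⟨j, a, hj, hjo, ha, rfl⟩ := hx
    exact hT.hcom o j o k a b (Ne.symm hjo) (Ne.symm hk) ha hb
  | one => exact Commute.one_left _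
  | mul x y _ _ hx hy => exact hx.mul_left hy
  | inv x _ hx => exact hx.inv_left

/-- normal form -/
theorem TA_insert {φ : E →* SLn n F} {X : Fin n → Fin n → F → E} (hT : Tor φ X) {o k : Fin n} (hk : k ≠ o)
    (A : Finset (Fin n)) {x : E} (hx : x ∈ TA X o (insert k A)) :
    ∃ a, a ≠ 0 ∧ ∃ y ∈ TA X o A, x = Hr X o k a * y := by
  unfold TA at hx
  induction hx using Subgroup.closure_induction with
  | mem x hx =>
    obtain ⟨j, a, hj, hjo, ha, rfl⟩ := hx
    rcases Finset.mem_insert.1 hj with rfl | hjA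
    · exact ⟨a, ha, 1, (TA X o A).one_mem, (mul_one _).symm⟩
    · refine ⟨1, one_ne_zero, Hr X o j a, Subgroup.subset_closure ⟨j, a, hjA, hjo, ha, rfl⟩, ?_⟩
      rw [Hr_one, one_mul]
  | one =>
    refine ⟨1, one_ne_zero, 1, (TA X o A).one_mem, ?_⟩
    rw [Hr_one, one_mul]
  | mul x y _ _ hx hy =>
    obtain ⟨a, ha, u, hu, rfl⟩ := hx
    obtain ⟨b, hb, v, hv, rfl⟩ := hy
    refine ⟨a * b, mul_ne_zero ha hb, u * v, (TA X o A).mul_mem hu hv, ?_⟩
    rw [← hT.hmul o k a b (Ne.symm hk) ha hb]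
    have hc := (TA_comm hT hk A hu hb).eq
    calc Hr X o k a * u * (Hr X o k b * v) = Hr X o k a * (u * Hr X o k b) * v := by group
      _ = Hr X o k a * (Hr X o k b * u) * v := by rw [hc]
      _ = Hr X o k a * Hr X o k b * (u * v) := by group
  | inv x _ hx =>
    obtain ⟨a, ha, u, hu, rfl⟩ := hx
    refine ⟨a⁻¹, inv_ne_zero ha, u⁻¹, (TA X o A).inv_mem hu, ?_⟩
    have hc := (TA_comm hT hk A hu ha).eq
    rw [← Hr_inv hT (Ne.symm hk) ha, ← hc, mul_inv_rev]

theorem TA_main (hPMON : StPMON) {φ : E →* SLn n F} {X : Fin n → Fin n → F → E} (hW : Weq φ X) (hT : Tor φ X)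
    (o : Fin n) (A : Finset (Fin n)) : ∀ x ∈ TA X o A,
      (∃ c, Mono (φ x) 1 c ∧ ∀ j, j ∉ A → j ≠ o → c j = 1) ∧ (φ x = 1 → x = 1) := by
  obtain ⟨hmul, -, -, huni, hone, -, -, -⟩ := hPMON n F
  induction A using Finset.induction_on with
  | empty =>
    intro x hx
    have hx1 : x = 1 := by
      have h0 : TA X o ∅ = ⊥ := by
        unfold TA
        rw [Subgroup.closure_eq_bot_iff]
        rintro y ⟨j, a, hj, -⟩
        exact absurd hj (Finset.notMem_empty j)
      rw [h0] at hx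
      exact Subgroup.mem_bot.1 hx
    subst hx1
    refine ⟨⟨fun _ => 1, ?_, fun _ _ _ => rfl⟩, fun _ => rfl⟩
    rw [map_one]
    exact hone
  | insert k A hkA ih =>
    intro x hx
    by_cases hko : k = o
    · have hx' : x ∈ TA X o A := by
        have hle : TA X o (insert k A) ≤ TA X o A := by
          unfold TA
          rw [Subgroup.closure_le]
          rintro y ⟨j, a, hj, hjo, ha, rfl⟩
          rcases Finset.mem_insert.1 hj with rfl | hjA
          · exact absurd hko hjo
          · exact Subgroup.subset_closure ⟨j, a, hjA, hjo, ha, rfl⟩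
        exact hle hx
      obtain ⟨⟨c, hc, hc1⟩, h1⟩ := ih x hx'
      refine ⟨⟨c, hc, fun j hj hjo => hc1 j (fun h => hj (Finset.mem_insert_of_mem h)) hjo⟩, h1⟩
    · obtain ⟨a, ha, y, hy, rfl⟩ := TA_insert hT hko A hx
      obtain ⟨⟨c, hc, hc1⟩, h1⟩ := ih y hy
      have hM := hmul _ _ _ _ _ _ (hW.hmono o k a (Ne.symm hko) ha) hc
      rw [← map_mul, mul_one] at hM
      have hMk : ∀ j, j ∉ A → j ≠ o → c j = 1 := hc1
      refine ⟨⟨_, hM, ?_⟩, ?_⟩
      · intro j hj hjo
        have hjk : j ≠ k := fun h => hj (h ▸ Finset.mem_insert_self k A)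
        have hjA : j ∉ A := fun h => hj (Finset.mem_insert_of_mem h)
        simp only [Equiv.Perm.coe_one, id_eq, hMk j hjA hjo, mul_one]
        unfold Pool.Agent.Helper70.ML.hc
        rw [if_neg hjo, if_neg hjk]
      · intro hx1
        rw [hx1] at hM
        obtain ⟨-, hcc⟩ := huni _ _ _ _ _ hM hone
        have hk1 := congrFun hcc k
        simp only [Equiv.Perm.coe_one, id_eq, hMk k hkA hko, mul_one] at hk1
        have ha1 : a⁻¹ = 1 := by
          have h2 : Pool.Agent.Helper70.ML.hc o k a k = a⁻¹ := by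
            unfold Pool.Agent.Helper70.ML.hc
            rw [if_neg hko, if_pos rfl]
          rw [← h2]
          exact hk1
        have ha2 : a = 1 := inv_eq_one.1 ha1
        subst ha2
        rw [Hr_one, one_mul] at hx1 ⊢
        exact h1 hx1

theorem Th_le {φ : E →* SLn n F} {X : Fin n → Fin n → F → E} (hT : Tor φ X) (o : Fin n) :
    Th X ≤ TA X o Finset.univ := by
  unfold Th
  rw [Subgroup.closure_le]
  rintro x ⟨j, k, a, hjk, ha, rfl⟩
  have hmem : ∀ l, l ≠ o → Hr X o l a ∈ TA X o Finset.univ := fun l hl =>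
    Subgroup.subset_closure ⟨l, a, Finset.mem_univ l, hl, ha, rfl⟩
  by_cases hj : j = o
  · subst hj
    exact hmem k (Ne.symm hjk)
  · by_cases hk : k = o
    · subst hk
      rw [SetLike.mem_coe, hT.hinv k j a (Ne.symm hjk) ha]
      exact (TA X k Finset.univ).inv_mem (hmem j hj)
    · have h := hT.htri o j k a (Ne.symm hj) hjk (Ne.symm hk) ha
      rw [SetLike.mem_coe, eq_mul_inv_of_mul_eq h]
      exact (TA X o Finset.univ).mul_mem (hmem k hk) ((TA X o Finset.univ).inv_mem (hmem j hj))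

end

theorem hPTHK (hPMON : StPMON) : StPTHK := by
  intro n F _ E _ _ φ X hn _ hW hT x hx hx1
  exact (TA_main hPMON hW hT ⟨0, by omega⟩ Finset.univ x (Th_le hT _ hx)).2 hx1

end Pool.Agent.Helper78.ML
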